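import Pool.Agent.Helper15_SIU.Stmts

set_option autoImplicit false

open MeasureTheory Filter Topology
open scoped ENNReal

namespace Pool.Agent.SIU.H93

theorem LL_false (z : E7) : LL false z = z := rfl

theorem LL_true (z : E7) : LL true z = flop z := rfl

theorem BB_le_four {z : E7} (hz : z ∈ Shell) : BB z ≤ 4 := by
  obtain ⟨h1, h2, h3, h4, h5, h6⟩ := hz
  rw [DD_eq] at h4
  have := BB_nonneg z
  nlinarith [sq_nonneg ‖z 4‖]

theorem sqrt_BB_le {z : E7} (hz : z ∈ Shell) : √(BB z) ≤ 2 := by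
  rw [show (2 : ℝ) = √4 by
    rw [show (4 : ℝ) = 2 ^ 2 by norm_num, Real.sqrt_sq (by norm_num)]]
  exact Real.sqrt_le_sqrt (BB_le_four hz)

theorem vert_flop {z v : E7} (h : X2.Vert z v) : X2.Vert (flop z) (flop v) := by
  rw [vert_iff] at h ⊢
  obtain ⟨a, b, c, rfl⟩ := h
  refine ⟨b - a, b, c, ?_⟩
  rw [flop_apply, flop_apply]
  funext m
  fin_cases m <;> simp

theorem norm_flop (v : E7) : ‖flop v‖ ≤ ‖v‖ := by
  rw [pi_norm_le_iff_of_nonneg (norm_nonneg _), flop_apply]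
  intro i
  fin_cases i <;> exact norm_le_pi_norm v _

/-- the norm of `act (B^(-1/2), 1, 1) (flop v)` -/
theorem norm_act_flop {b : ℝ} (hb : 0 < b) (hb2 : b ≤ 2) (v : E7) :
    ‖X2.act ![((b⁻¹ : ℝ) : ℂ), 1, 1] (flop v)‖ ≤ 4 * b⁻¹ * ‖v‖ := by
  have hbi : 0 < b⁻¹ := inv_pos.mpr hb
  have h2 : 1 / 2 ≤ b⁻¹ := by
    rw [one_div]
    exact inv_anti₀ hb hb2
  have hb4 : b ≤ 4 * b⁻¹ := by nlinarith
  have h14 : 1 ≤ 4 * b⁻¹ := by linarith
  have hbb : b⁻¹ ≤ 4 * b⁻¹ := by linarith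
  have hn : ∀ j, ‖v j‖ ≤ ‖v‖ := norm_le_pi_norm v
  have hnb : ‖((b⁻¹ : ℝ) : ℂ)‖ = b⁻¹ := by
    rw [Complex.norm_real, Real.norm_of_nonneg hbi.le]
  have hnb' : ‖(((b⁻¹ : ℝ) : ℂ))⁻¹‖ = b := by
    rw [norm_inv, hnb, inv_inv]
  rw [pi_norm_le_iff_of_nonneg (by positivity), act_eq, flop_apply]
  have key : ∀ (c : ℝ) (j : Fin 7), 0 ≤ c → c ≤ 4 * b⁻¹ → c * ‖v j‖ ≤ 4 * b⁻¹ * ‖v‖ := by
    intro c j hc hc'
    exact mul_le_mul hc' (hn j) (norm_nonneg _) (by positivity)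
  intro i
  fin_cases i
  · show ‖((b⁻¹ : ℝ) : ℂ) * v 2‖ ≤ _
    rw [norm_mul, hnb]
    exact key _ _ hbi.le hbb
  · show ‖((b⁻¹ : ℝ) : ℂ) * v 3‖ ≤ _
    rw [norm_mul, hnb]
    exact key _ _ hbi.le hbb
  · show ‖(((b⁻¹ : ℝ) : ℂ))⁻¹ * 1 * v 0‖ ≤ _
    rw [mul_one, norm_mul, hnb']
    exact key _ _ hb.le hb4
  · show ‖(((b⁻¹ : ℝ) : ℂ))⁻¹ * 1 * v 1‖ ≤ _
    rw [mul_one, norm_mul, hnb']
    exact key _ _ hb.le hb4
  · show ‖(1 : ℂ) * v 4‖ ≤ _
    rw [norm_mul, norm_one]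
    exact key _ _ zero_le_one h14
  · show ‖(1 : ℂ) * v 5‖ ≤ _
    rw [norm_mul, norm_one]
    exact key _ _ zero_le_one h14
  · show ‖(1 : ℂ) * v 6‖ ≤ _
    rw [norm_mul, norm_one]
    exact key _ _ zero_le_one h14

theorem lp_apply {k : ℕ} (L : E7 →L[ℂ] E7) (η : E7 → Alt 7 k) (z : E7) (v : Fin k → E7) :
    lp L η z v = η (L z) (fun i => L (v i)) := rfl

theorem bound_true {k : ℕ} (η : E7 → Alt 7 k) (hη : X2.BasicOn X2.U η) (C : ℝ) (hC0 : 0 ≤ C)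
    (hC : ∀ z ∈ Shell, ‖η z‖ ≤ C) (z : E7) (hz : z ∈ Shell ∩ U2') :
    ‖lp (LL true) η z‖ ≤ (C * 4 ^ k) * (√(BB z))⁻¹ ^ k := by
  obtain ⟨hS, hU⟩ := hz
  have hB := BB_pos hU
  have hb : 0 < √(BB z) := Real.sqrt_pos.mpr hB
  have hb2 := sqrt_BB_le hS
  have hbi : 0 < (√(BB z))⁻¹ := inv_pos.mpr hb
  have hc : ∀ j, (![(((√(BB z))⁻¹ : ℝ) : ℂ), 1, 1] : Fin 3 → ℂ) j ≠ 0 := by
    intro j
    fin_cases j
    · show (((√(BB z))⁻¹ : ℝ) : ℂ) ≠ 0
      exact_mod_cast hbi.ne'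
    · exact one_ne_zero
    · exact one_ne_zero
  have hflU : flop z ∈ X2.U := (flop_mem hU).1
  have hn0 : ‖(((√(BB z))⁻¹ : ℝ) : ℂ)‖ ^ 2 * BB z = 1 := by
    rw [Complex.norm_real, Real.norm_of_nonneg hbi.le, inv_pow, Real.sq_sqrt hB.le]
    exact inv_mul_cancel₀ hB.ne'
  have hSh : X2.act ![(((√(BB z))⁻¹ : ℝ) : ℂ), 1, 1] (flop z) ∈ Shell := by
    obtain ⟨h1, h2, h3, h4, h5, h6⟩ := hS
    have e1 : AA (X2.act ![(((√(BB z))⁻¹ : ℝ) : ℂ), 1, 1] (flop z)) = 1 := by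
      rw [AA_act, AA_flop]
      exact hn0
    have e2 : DD (X2.act ![(((√(BB z))⁻¹ : ℝ) : ℂ), 1, 1] (flop z)) = DD z := by
      rw [DD_act hc, DD_flop]
      show ‖(1 : ℂ)‖ ^ 2 * DD z = DD z
      simp
    have e3 : YY (X2.act ![(((√(BB z))⁻¹ : ℝ) : ℂ), 1, 1] (flop z)) = YY z := by
      rw [YY_act, YY_flop]
      show ‖(1 : ℂ)‖ ^ 2 * YY z = YY z
      simp
    show 1 / 2 ≤ _ ∧ _ ≤ 2 ∧ 1 / 2 ≤ _ ∧ _ ≤ 2 ∧ 1 / 2 ≤ _ ∧ _ ≤ 2
    rw [e1, e2, e3]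
    exact ⟨by norm_num, by norm_num, h3, h4, h5, h6⟩
  apply ContinuousAlternatingMap.opNorm_le_bound _ (by positivity)
  intro v
  rw [lp_apply]
  have e := hη.1 (flop z) hflU _ hc (fun i => flop (v i))
  show ‖η (flop z) (fun i => flop (v i))‖ ≤ _
  rw [← e]
  calc ‖η (X2.act ![(((√(BB z))⁻¹ : ℝ) : ℂ), 1, 1] (flop z))
        (fun i => X2.act ![(((√(BB z))⁻¹ : ℝ) : ℂ), 1, 1] (flop (v i)))‖
      ≤ ‖η (X2.act ![(((√(BB z))⁻¹ : ℝ) : ℂ), 1, 1] (flop z))‖ *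
        ∏ i, ‖X2.act ![(((√(BB z))⁻¹ : ℝ) : ℂ), 1, 1] (flop (v i))‖ :=
        ContinuousAlternatingMap.le_opNorm _ _
    _ ≤ C * ∏ i, (4 * (√(BB z))⁻¹ * ‖v i‖) := by
        apply mul_le_mul (hC _ hSh) _ (Finset.prod_nonneg fun i _ => norm_nonneg _) hC0
        exact Finset.prod_le_prod (fun i _ => norm_nonneg _)
          (fun i _ => norm_act_flop hb hb2 (v i))
    _ = C * 4 ^ k * (√(BB z))⁻¹ ^ k * ∏ i, ‖v i‖ := by
        rw [Finset.prod_mul_distrib, Finset.prod_const, Finset.card_univ, Fintype.card_fin,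
          mul_pow]
        ring

theorem bound_false {k : ℕ} (η : E7 → Alt 7 k) (C : ℝ) (hC0 : 0 ≤ C)
    (hC : ∀ z ∈ Shell, ‖η z‖ ≤ C) (z : E7) (hz : z ∈ Shell ∩ U2') :
    ‖lp (LL false) η z‖ ≤ (C * 2 ^ k) * (√(BB z))⁻¹ ^ k := by
  obtain ⟨hS, hU⟩ := hz
  have hb : 0 < √(BB z) := Real.sqrt_pos.mpr (BB_pos hU)
  have h2 : 1 ≤ 2 * (√(BB z))⁻¹ := by
    have := inv_anti₀ hb (sqrt_BB_le hS)
    linarith
  have h3 : 1 ≤ (2 * (√(BB z))⁻¹) ^ k := one_le_pow₀ h2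
  have e : lp (LL false) η z = η z := by
    ext v
    rfl
  rw [e, mul_assoc, ← mul_pow]
  calc ‖η z‖ ≤ C * 1 := by rw [mul_one]; exact hC z hS
    _ ≤ C * (2 * (√(BB z))⁻¹) ^ k := mul_le_mul_of_nonneg_left h3 hC0

theorem U2'_subset : U2' ⊆ X2.U := fun _ h => h.1

theorem basic_mono {k : ℕ} {V W : Set E7} (h : V ⊆ W) {η : E7 → Alt 7 k}
    (hη : X2.BasicOn W η) : X2.BasicOn V η :=
  ⟨fun z hz => hη.1 z (h hz), fun z hz => hη.2 z (h hz)⟩

theorem bdf : BdfStmt := by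
  intro b k η hη
  refine ⟨?_, ?_, ?_, ?_⟩
  · intro hc
    obtain ⟨C, hC⟩ := isCompact_Shell.exists_bound_of_continuousOn (hc.mono Shell_subset)
    have hC' : ∀ z ∈ Shell, ‖η z‖ ≤ max C 0 := fun z hz => (hC z hz).trans (le_max_left _ _)
    cases b
    · exact ⟨_, fun z hz => bound_false η _ (le_max_right _ _) hC' z hz⟩
    · exact ⟨_, fun z hz => bound_true η hη _ (le_max_right _ _) hC' z hz⟩
  · intro m hm
    have h1 : ContDiffOn ℝ m (fun z => η (LL b z)) U2' := by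
      apply hm.comp ((LL b).restrictScalars ℝ).contDiff.contDiffOn
      intro z hz
      exact (LL_mem b hz).1
    exact (ContinuousAlternatingMap.compContinuousLinearMapCLM
      ((LL b).restrictScalars ℝ)).contDiff.comp_contDiffOn h1
  · cases b
    · exact basic_mono U2'_subset hη
    · constructor
      · intro z hz c hc v
        rw [lp_apply, lp_apply]
        show η (flop (X2.act c z)) (fun i => flop (X2.act c (v i))) =
          η (flop z) (fun i => flop (v i))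
        rw [flop_act hc z]
        have e : (fun i => flop (X2.act c (v i))) =
            fun i => X2.act ![(c 0)⁻¹ * c 1, c 1, c 2] (flop (v i)) := by
          funext i
          exact flop_act hc (v i)
        rw [e]
        apply hη.1 _ (flop_mem hz).1
        intro j
        fin_cases j
        · exact mul_ne_zero (inv_ne_zero (hc 0)) (hc 1)
        · exact hc 1
        · exact hc 2
      · intro z hz v i hv
        rw [lp_apply]
        exact hη.2 (flop z) (flop_mem hz).1 (fun i => flop (v i)) i (vert_flop hv)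
  · intro hd z hz
    have hdz : DifferentiableAt ℝ η (((LL b).restrictScalars ℝ) z) :=
      hd.differentiableAt (isOpen_U.mem_nhds (LL_mem b hz).1)
    have hL : ∀ x : E7, fderiv ℝ (fun z : E7 => ((LL b).restrictScalars ℝ) z) x =
        (LL b).restrictScalars ℝ := fun x => ((LL b).restrictScalars ℝ).fderiv
    have key := extDeriv_pullback (𝕜 := ℝ) (r := ⊤) (x := z) (ω := η)
      (f := fun z : E7 => ((LL b).restrictScalars ℝ) z) hdz
      ((LL b).restrictScalars ℝ).contDiff.contDiffAt le_top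
    simp only [hL] at key
    exact key

end Pool.Agent.SIU.H93
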