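import Pool.Agent.Helper15_SIU.Stmts

set_option autoImplicit false

open MeasureTheory Filter Topology
open scoped ENNReal

namespace Pool.Agent.SIU.H93

theorem U2'_subset' : U2' ⊆ X2.U := fun _ h => h.1

theorem rho_zero {z : E7} (h : BB z = 0) : rho z = 0 := by
  unfold rho
  rw [h, mul_zero, zero_div]

theorem continuousOn_rho : ContinuousOn rho X2.U := by
  unfold rho
  exact (continuous_AA.mul continuous_BB).continuousOn.div continuous_DD.continuousOn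
    (fun z hz => (DD_pos hz).ne')

theorem continuousOn_extDeriv {k : ℕ} {V : Set E7} (hV : IsOpen V) {η : E7 → Alt 7 k}
    (h : ContDiffOn ℝ 1 η V) : ContinuousOn (extDeriv η) V := by
  have h1 : ContinuousOn (fderiv ℝ η) V := h.continuousOn_fderiv_of_isOpen hV le_rfl
  exact (ContinuousAlternatingMap.alternatizeUncurryFinCLM ℝ E7 ℝ).continuous.comp_continuousOn h1

theorem basic_mono' {k : ℕ} {V W : Set E7} (h : V ⊆ W) {η : E7 → Alt 7 k}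
    (hη : X2.BasicOn W η) : X2.BasicOn V η :=
  ⟨fun z hz => hη.1 z (h hz), fun z hz => hη.2 z (h hz)⟩

theorem wdg7n (h1 : WdgStmt) :
    ∃ C : ℝ, ∀ (a : Alt 7 6) (b : Alt 7 1), ‖(wedge a b : Alt 7 7)‖ ≤ C * ‖a‖ * ‖b‖ :=
  (h1 7 6 1).2.2.2.2.2.1

theorem wdg8n (h1 : WdgStmt) :
    ∃ C : ℝ, ∀ (a : Alt 7 6) (b : Alt 7 2), ‖(wedge a b : Alt 7 8)‖ ≤ C * ‖a‖ * ‖b‖ :=
  (h1 7 6 2).2.2.2.2.2.1

theorem wdg7c (h1 : WdgStmt) :
    ContDiff ℝ 1 (fun p : Alt 7 6 × Alt 7 1 => (wedge p.1 p.2 : Alt 7 7)) :=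
  (h1 7 6 1).2.2.2.2.1 1

theorem wdg8c (h1 : WdgStmt) :
    Continuous (fun p : Alt 7 6 × Alt 7 2 => (wedge p.1 p.2 : Alt 7 8)) :=
  ((h1 7 6 2).2.2.2.2.1 0).continuous

theorem wdg7b (h1 : WdgStmt) (a : E7 → Alt 7 6) (b : E7 → Alt 7 1) (ha : X2.BasicOn U2' a)
    (hb : X2.BasicOn U2' b) : X2.BasicOn U2' (fun z => (wedge (a z) (b z) : Alt 7 7)) :=
  (h1 7 6 1).2.2.2.2.2.2 3 4 X2 U2' a b ha hb

theorem wdg8b (h1 : WdgStmt) (a : E7 → Alt 7 6) (b : E7 → Alt 7 2) (ha : X2.BasicOn U2' a)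
    (hb : X2.BasicOn U2' b) : X2.BasicOn U2' (fun z => (wedge (a z) (b z) : Alt 7 8)) :=
  (h1 7 6 2).2.2.2.2.2.2 3 4 X2 U2' a b ha hb

theorem won7 (h2 : WonStmt) (c : E7 →L[ℝ] ℝ) (a : Alt 7 7) :
    ‖(w1 c a : Alt 7 8)‖ ≤ 8 * (‖c‖ * ‖a‖) := by
  have h := (h2 7 7).2.2.2.2.2.1 c a
  have e : ((7 : ℕ) : ℝ) + 1 = 8 := by norm_num
  rw [e] at h
  exact h

theorem won0 (h2 : WonStmt) (a : Alt 7 7) : (w1 (0 : E7 →L[ℝ] ℝ) a : Alt 7 8) = 0 := by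
  have h := ((h2 7 7).2.2.1 0 0 a).1
  rw [zero_smul, zero_smul] at h
  exact h

theorem lbz1 (h3 : LbzStmt) (h : E7 → ℝ) (K : E7 → Alt 7 7) (z : E7)
    (d1 : DifferentiableAt ℝ h z) (d2 : DifferentiableAt ℝ K z) :
    (extDeriv (fun w => h w • K w) z : Alt 7 8) =
      w1 (fderiv ℝ h z) (K z) + h z • extDeriv K z :=
  h3.1 7 7 h K z d1 d2

theorem lbz3 (h3 : LbzStmt) (K : E7 → Alt 7 6) (θ : E7 → Alt 7 1) (z : E7)
    (d1 : DifferentiableAt ℝ K z) (d2 : DifferentiableAt ℝ θ z) (d3 : extDeriv K z = 0) :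
    (extDeriv (fun w => (wedge (K w) (θ w) : Alt 7 7)) z : Alt 7 8) =
      (wedge (K z) (extDeriv θ z)) :=
  h3.2.2 7 6 ⟨3, rfl⟩ K θ z d1 d2 d3

/-- the main limit argument, abstractly -/
theorem cut_aux (K : E7 → Alt 7 6) (θ : E7 → Alt 7 1) (W : E7 → Alt 7 7) (V : E7 → Alt 7 8)
    (κ : ℕ → E7 → ℝ) (C C1 CK CW CV : ℝ)
    (h2 : WonStmt) (h4 : BsdStmt) (h5 : DctStmt) (h6 : IshStmt) (h7 : StkStmt)
    (hWC : ContDiffOn ℝ 1 W U2') (hWbas : X2.BasicOn U2' W)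
    (hVc : ContinuousOn V U2') (hVb : X2.BasicOn U2' V)
    (hC1 : 0 ≤ C1) (hCK : 0 ≤ CK) (hCW : 0 ≤ CW) (hCV : 0 ≤ CV)
    (bK : ∀ z ∈ Shell, ‖K z‖ ≤ CK)
    (bW : ∀ z, ‖W z‖ ≤ CW * ‖K z‖ * ‖θ z‖)
    (bV : ∀ z, ‖V z‖ ≤ CV * ‖K z‖ * ‖extDeriv θ z‖)
    (hθ1 : ∀ z ∈ Shell ∩ U2', ‖θ z‖ ≤ C * (√(BB z))⁻¹)
    (hθ2 : ∀ z ∈ Shell ∩ U2', ‖extDeriv θ z‖ ≤ C * (BB z)⁻¹)
    (hκ : ∀ i, InvFn (κ i) ∧
      (∃ ε > 0, ∀ z ∈ X2.U, rho z < ε → κ i z = 0) ∧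
      (∀ z ∈ X2.U, |κ i z| ≤ 1) ∧
      (∀ z ∈ Shell ∩ U2', ‖fderiv ℝ (κ i) z‖ ≤ C1 * (√(BB z))⁻¹) ∧
      (∀ z ∈ U2', ∀ᶠ m in atTop, κ m z = 1 ∧ fderiv ℝ (κ m) z = 0))
    (hExt : ∀ i, ∀ z ∈ U2', (extDeriv (fun w => κ i w • W w) z : Alt 7 8) =
      w1 (fderiv ℝ (κ i) z) (W z) + κ i z • V z) :
    ∫ x, chi V x = 0 := by
  obtain ⟨hB1', -, -⟩ := h4 7 3 4 X2 X2.U isOpen_U (fun w hw c hc => (act_mem_U hc w).mpr hw)
  have hΓC : ∀ i, ContDiffOn ℝ 1 (fun w => κ i w • W w) X2.U := by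
    intro i z hz
    apply ContDiffAt.contDiffWithinAt
    obtain ⟨hI, ⟨ε, hε, hz0⟩, -, -, -⟩ := hκ i
    by_cases hB : BB z = 0
    · have hev : (fun w => κ i w • W w) =ᶠ[𝓝 z] fun _ => 0 := by
        have hc : ContinuousAt rho z := continuousOn_rho.continuousAt (isOpen_U.mem_nhds hz)
        have h1 : ∀ᶠ w in 𝓝 z, rho w < ε := by
          apply hc.eventually_lt continuousAt_const
          rw [rho_zero hB]
          exact hε
        filter_upwards [h1, isOpen_U.mem_nhds hz] with w hw hwU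
        rw [hz0 w hwU hw, zero_smul]
      exact contDiffAt_const.congr_of_eventuallyEq hev
    · have hz' : z ∈ U2' := ⟨hz, hB⟩
      have h1 : ContDiffAt ℝ 1 (κ i) z :=
        ((hI.1.contDiffAt (isOpen_U.mem_nhds hz)).of_le (by exact_mod_cast le_top))
      have h2 : ContDiffAt ℝ 1 W z := hWC.contDiffAt (isOpen_U2'.mem_nhds hz')
      exact h1.smul h2
  have hΓb : ∀ i, X2.BasicOn X2.U (fun w => κ i w • W w) := by
    intro i
    obtain ⟨hI, ⟨ε, hε, hz0⟩, -, -, -⟩ := hκ i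
    have hzero : ∀ z ∈ X2.U, BB z = 0 → κ i z = 0 := fun z hz hB =>
      hz0 z hz (by rw [rho_zero hB]; exact hε)
    constructor
    · intro z hz c hc v
      show κ i (X2.act c z) • W (X2.act c z) (fun j => X2.act c (v j)) = κ i z • W z v
      rw [hI.2 z hz c hc]
      by_cases hB : BB z = 0
      · rw [hzero z hz hB, zero_smul, zero_smul]
      · rw [hWbas.1 z ⟨hz, hB⟩ c hc v]
    · intro z hz v j hv
      show κ i z • W z v = 0
      by_cases hB : BB z = 0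
      · rw [hzero z hz hB, zero_smul]
      · rw [hWbas.2 z ⟨hz, hB⟩ v j hv, smul_zero]
  have hlim : Tendsto (fun i => ∫ x, chi (extDeriv (fun w => κ i w • W w)) x) atTop
      (𝓝 (∫ x, chi V x)) := by
    apply h5.2 (fun i => extDeriv (fun w => κ i w • W w)) V
      (fun z => (8 * (C1 * (CW * CK * C)) + CV * CK * C) * (BB z)⁻¹)
    · intro i
      exact (continuousOn_extDeriv isOpen_U (hΓC i)).mono U2'_subset'
    · intro i
      exact basic_mono' U2'_subset' (hB1' 7 (fun w => κ i w • W w)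
        ((hΓC i).differentiableOn one_ne_zero) (hΓb i))
    · exact hVc
    · exact hVb
    · exact h6.1.const_mul _
    · intro i z hz _ _ _
      obtain ⟨-, -, hk1, hk2, -⟩ := hκ i
      have hzS : z ∈ Shell := hz.1
      have hzU : z ∈ U2' := hz.2
      have hB := BB_pos hzU
      have hb : 0 < √(BB z) := Real.sqrt_pos.mpr hB
      have hbi : 0 < (√(BB z))⁻¹ := inv_pos.mpr hb
      have hbb : (√(BB z))⁻¹ * (√(BB z))⁻¹ = (BB z)⁻¹ := by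
        rw [← mul_inv, Real.mul_self_sqrt hB.le]
      have b4 : ‖W z‖ ≤ CW * CK * (C * (√(BB z))⁻¹) := by
        refine (bW z).trans ?_
        apply mul_le_mul _ (hθ1 z hz) (norm_nonneg _) (by positivity)
        exact mul_le_mul_of_nonneg_left (bK z hzS) hCW
      have b5 : ‖V z‖ ≤ CV * CK * (C * (BB z)⁻¹) := by
        refine (bV z).trans ?_
        apply mul_le_mul _ (hθ2 z hz) (norm_nonneg _) (by positivity)
        exact mul_le_mul_of_nonneg_left (bK z hzS) hCV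
      have b6 : ‖(w1 (fderiv ℝ (κ i) z) (W z) : Alt 7 8)‖ ≤
          8 * ((C1 * (√(BB z))⁻¹) * (CW * CK * (C * (√(BB z))⁻¹))) := by
        refine (won7 h2 _ _).trans ?_
        apply mul_le_mul_of_nonneg_left _ (by norm_num)
        exact mul_le_mul (hk2 z hz) b4 (norm_nonneg _) (by positivity)
      have b7 : ‖κ i z • V z‖ ≤ CV * CK * (C * (BB z)⁻¹) := by
        rw [norm_smul, Real.norm_eq_abs]
        calc |κ i z| * ‖V z‖ ≤ 1 * ‖V z‖ :=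
              mul_le_mul_of_nonneg_right (hk1 z hzU.1) (norm_nonneg _)
          _ ≤ _ := by rw [one_mul]; exact b5
      have e := hExt i z hzU
      have b8 : ‖(w1 (fderiv ℝ (κ i) z) (W z) : Alt 7 8) + κ i z • V z‖ ≤
          (8 * (C1 * (CW * CK * C)) + CV * CK * C) * (BB z)⁻¹ := by
        refine (norm_add_le _ _).trans ((add_le_add b6 b7).trans (le_of_eq ?_))
        rw [← hbb]
        ring
      rw [← e] at b8
      exact b8
    · intro z hz _ _ _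
      have hev := (hκ 0).2.2.2.2 z hz.2
      apply tendsto_const_nhds.congr'
      filter_upwards [hev] with m hm
      have e := hExt m z hz.2
      rw [hm.1, hm.2, one_smul, won0 h2, zero_add] at e
      exact e.symm
  have hzero : ∀ i, ∫ x, chi (extDeriv (fun w => κ i w • W w)) x = 0 :=
    fun i => (h7 (fun w => κ i w • W w) (hΓC i) (hΓb i)).2
  simp only [hzero] at hlim
  exact tendsto_nhds_unique hlim tendsto_const_nhds

theorem compg {E F G H : Type*} [NormedAddCommGroup E] [NormedSpace ℝ E] [NormedAddCommGroup F]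
    [NormedSpace ℝ F] [NormedAddCommGroup G] [NormedSpace ℝ G] [NormedAddCommGroup H]
    [NormedSpace ℝ H] (w : F → G → H) (hw : ContDiff ℝ 1 (fun p : F × G => w p.1 p.2))
    (s : Set E) (K : E → F) (θ : E → G) (hK : ContDiffOn ℝ 1 K s) (hθ : ContDiffOn ℝ 1 θ s) :
    ContDiffOn ℝ 1 (fun z => w (K z) (θ z)) s :=
  hw.comp_contDiffOn (hK.prodMk hθ)

theorem compc {E F G H : Type*} [TopologicalSpace E] [TopologicalSpace F] [TopologicalSpace G]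
    [TopologicalSpace H] (w : F → G → H) (hw : Continuous (fun p : F × G => w p.1 p.2))
    (s : Set E) (K : E → F) (θ : E → G) (hK : ContinuousOn K s) (hθ : ContinuousOn θ s) :
    ContinuousOn (fun z => w (K z) (θ z)) s :=
  hw.comp_continuousOn (hK.prodMk hθ)

theorem W_contDiff (h1 : WdgStmt) (K : E7 → Alt 7 6) (θ : E7 → Alt 7 1)
    (hK : ContDiffOn ℝ 1 K U2') (hθ : ContDiffOn ℝ 1 θ U2') :
    ContDiffOn ℝ 1 (fun z => (wedge (K z) (θ z) : Alt 7 7)) U2' :=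
  compg (fun (a : Alt 7 6) (b : Alt 7 1) => (wedge a b : Alt 7 7)) (wdg7c h1) U2' K θ hK hθ

theorem V_cont (h1 : WdgStmt) (K : E7 → Alt 7 6) (θ : E7 → Alt 7 2)
    (hK : ContinuousOn K U2') (hθ : ContinuousOn θ U2') :
    ContinuousOn (fun z => (wedge (K z) (θ z) : Alt 7 8)) U2' :=
  compc (fun (a : Alt 7 6) (b : Alt 7 2) => (wedge a b : Alt 7 8)) (wdg8c h1) U2' K θ hK hθ

theorem lbz1' (h3 : LbzStmt) (h : E7 → ℝ) (K : E7 → Alt 7 7) (v : Alt 7 8) (z : E7)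
    (d1 : DifferentiableAt ℝ h z) (d2 : DifferentiableAt ℝ K z) (hv : extDeriv K z = v) :
    (extDeriv (fun w => h w • K w) z : Alt 7 8) = w1 (fderiv ℝ h z) (K z) + h z • v := by
  rw [← hv]
  exact lbz1 h3 h K z d1 d2

theorem ext_formula (h3 : LbzStmt) (K : E7 → Alt 7 6) (θ : E7 → Alt 7 1) (f : E7 → ℝ) (z : E7)
    (d1 : DifferentiableAt ℝ K z) (d2 : DifferentiableAt ℝ θ z) (d3 : extDeriv K z = 0)
    (d4 : DifferentiableAt ℝ f z) (W : E7 → Alt 7 7) (V : E7 → Alt 7 8)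
    (hW : W = fun w => (wedge (K w) (θ w) : Alt 7 7))
    (hV : V = fun w => (wedge (K w) (extDeriv θ w) : Alt 7 8))
    (d5 : DifferentiableAt ℝ W z) :
    (extDeriv (fun w => f w • W w) z : Alt 7 8) = w1 (fderiv ℝ f z) (W z) + f z • V z := by
  apply lbz1' h3 f W (V z) z d4 d5
  subst hW hV
  exact lbz3 h3 K θ z d1 d2 d3

theorem bd_abs {a C x : ℝ} (h : a ≤ C * x) (hx : 0 ≤ x) : a ≤ |C| * x :=
  h.trans (mul_le_mul_of_nonneg_right (le_abs_self C) hx)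

theorem bd_abs3 {a C x y : ℝ} (h : a ≤ C * x * y) (hx : 0 ≤ x) (hy : 0 ≤ y) : a ≤ |C| * x * y :=
  h.trans (mul_le_mul_of_nonneg_right (mul_le_mul_of_nonneg_right (le_abs_self C) hx) hy)

theorem K_bd (K : E7 → Alt 7 6) (hK : ContinuousOn K X2.U) :
    ∃ C : ℝ, 0 ≤ C ∧ ∀ z ∈ Shell, ‖K z‖ ≤ C := by
  obtain ⟨C, hC⟩ := isCompact_Shell.exists_bound_of_continuousOn (hK.mono Shell_subset)
  exact ⟨|C|, abs_nonneg _, fun z hz => (hC z hz).trans (le_abs_self C)⟩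

theorem bW (C : ℝ) (hC : ∀ (a : Alt 7 6) (b : Alt 7 1), ‖(wedge a b : Alt 7 7)‖ ≤ C * ‖a‖ * ‖b‖)
    (K : E7 → Alt 7 6) (θ : E7 → Alt 7 1) (W : E7 → Alt 7 7)
    (hW : W = fun w => (wedge (K w) (θ w) : Alt 7 7)) (z : E7) :
    ‖W z‖ ≤ |C| * ‖K z‖ * ‖θ z‖ := by
  subst hW
  exact bd_abs3 (hC (K z) (θ z)) (norm_nonneg _) (norm_nonneg _)

theorem bV (C : ℝ) (hC : ∀ (a : Alt 7 6) (b : Alt 7 2), ‖(wedge a b : Alt 7 8)‖ ≤ C * ‖a‖ * ‖b‖)
    (K : E7 → Alt 7 6) (θ : E7 → Alt 7 2) (V : E7 → Alt 7 8)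
    (hV : V = fun w => (wedge (K w) (θ w) : Alt 7 8)) (z : E7) :
    ‖V z‖ ≤ |C| * ‖K z‖ * ‖θ z‖ := by
  subst hV
  exact bd_abs3 (hC (K z) (θ z)) (norm_nonneg _) (norm_nonneg _)

theorem cut_pre (h1 : WdgStmt) (h2 : WonStmt) (h3 : LbzStmt) (h4 : BsdStmt) (h5 : DctStmt)
    (h6 : IshStmt) (h7 : StkStmt) (h8 : CtfStmt) (K : E7 → Alt 7 6) (θ : E7 → Alt 7 1) (C : ℝ)
    (hK : Clo K) (hθC : ContDiffOn ℝ 1 θ U2') (hθb : X2.BasicOn U2' θ)
    (hθ1 : ∀ z ∈ Shell ∩ U2', ‖θ z‖ ≤ C * (√(BB z))⁻¹)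
    (hθ2 : ∀ z ∈ Shell ∩ U2', ‖extDeriv θ z‖ ≤ C * (BB z)⁻¹)
    (W : E7 → Alt 7 7) (V : E7 → Alt 7 8)
    (hW : W = fun w => (wedge (K w) (θ w) : Alt 7 7))
    (hV : V = fun w => (wedge (K w) (extDeriv θ w) : Alt 7 8)) :
    ∫ x, chi V x = 0 := by
  obtain ⟨κ, C1, hκ⟩ := h8
  obtain ⟨CW, hCW⟩ := wdg7n h1
  obtain ⟨CV, hCV⟩ := wdg8n h1
  obtain ⟨CK, hCK0, hCK⟩ := K_bd K hK.1.continuousOn
  have hKU2 : ContDiffOn ℝ 1 K U2' := hK.1.mono U2'_subset'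
  have hKb : X2.BasicOn U2' K := basic_mono' U2'_subset' hK.2.1
  have hWC : ContDiffOn ℝ 1 W U2' := by
    rw [hW]
    exact W_contDiff h1 K θ hKU2 hθC
  have hdb : X2.BasicOn U2' (extDeriv θ) :=
    (h4 7 3 4 X2 U2' isOpen_U2' (fun w hw c hc => act_mem_U2' hc hw)).1 1 θ
      (hθC.differentiableOn one_ne_zero) hθb
  have hVc : ContinuousOn V U2' := by
    rw [hV]
    exact V_cont h1 K (extDeriv θ) hKU2.continuousOn (continuousOn_extDeriv isOpen_U2' hθC)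
  have hVb : X2.BasicOn U2' V := by
    rw [hV]
    exact wdg8b h1 K (extDeriv θ) hKb hdb
  have hWb : X2.BasicOn U2' W := by
    rw [hW]
    exact wdg7b h1 K θ hKb hθb
  have bb : ∀ z : E7, 0 ≤ (√(BB z))⁻¹ := fun z => inv_nonneg.mpr (Real.sqrt_nonneg _)
  have bb2 : ∀ z : E7, 0 ≤ (BB z)⁻¹ := fun z => inv_nonneg.mpr (BB_nonneg z)
  refine cut_aux K θ W V κ |C| |C1| CK |CW| |CV| h2 h4 h5 h6 h7
    hWC hWb hVc hVb (abs_nonneg _) hCK0 (abs_nonneg _) (abs_nonneg _) hCK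
    (bW CW hCW K θ W hW) (bV CV hCV K (extDeriv θ) V hV) (fun z hz => bd_abs (hθ1 z hz) (bb z))
    (fun z hz => bd_abs (hθ2 z hz) (bb2 z)) ?_ ?_
  · intro i
    obtain ⟨a1, a2, a3, a4, a5⟩ := hκ i
    exact ⟨a1, a2, a3, fun z hz => bd_abs (a4 z hz) (bb z), a5⟩
  · intro i z hz
    have hn : U2' ∈ 𝓝 z := isOpen_U2'.mem_nhds hz
    exact ext_formula h3 K θ (κ i) z ((hKU2.differentiableOn one_ne_zero).differentiableAt hn)
      ((hθC.differentiableOn one_ne_zero).differentiableAt hn) (hK.2.2 z hz.1)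
      (((hκ i).1.1.contDiffAt (isOpen_U.mem_nhds hz.1)).differentiableAt (by simp)) W V hW hV
      ((hWC.differentiableOn one_ne_zero).differentiableAt hn)

theorem cut (h1 : WdgStmt) (h2 : WonStmt) (h3 : LbzStmt) (h4 : BsdStmt) (h5 : DctStmt)
    (h6 : IshStmt) (h7 : StkStmt) (h8 : CtfStmt) : CutStmt := by
  intro K θ C hK hθC hθb hθ1 hθ2
  exact cut_pre h1 h2 h3 h4 h5 h6 h7 h8 K θ C hK hθC hθb hθ1 hθ2 _ _ rfl rfl

end Pool.Agent.SIU.H93
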